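import Pool.Agent.Lib.MP_4fbe7c_an.UL.Iface
import Pool.Agent.Lib.MP_4fbe7c_an.SD.Int
import Pool.Agent.Lib.MP_4fbe7c_an.SD.Lyap

/-!
Module RTP (helper78): the time derivative of `∫ f P_c / P_k`.
-/

set_option autoImplicit false

open Set

namespace Pool.Agent.Lib.MP_4fbe7c_an.UL.H78

open Pool.Agent.Lib.MP_4fbe7c_an.SD Pool.Agent.Lib.MP_4fbe7c_an.SD.Lyap
  Pool.Agent.Lib.MP_4fbe7c_an.UL

theorem ii {L : ℝ} (hL : 0 < L) {f : ℝ → ℝ} (hf : ContinuousOn f (Icc 0 L)) :
    IntervalIntegrable f MeasureTheory.volume 0 L := by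
  apply ContinuousOn.intervalIntegrable
  rwa [uIcc_of_le hL.le]

theorem rtp : RtpStatement := by
  intro L m n ρ u v w f f' c k h hc hk hf hf'c t ht
  have hL := h.hL
  have mem : ∀ {k i : ℕ}, k ≤ n → i ∈ Finset.range (k + 1) → i ≤ n := fun hk hi =>
    (Nat.lt_succ_iff.mp (Finset.mem_range.mp hi)).trans hk
  have cf : ContinuousOn f (Icc 0 L) := hf.continuousOn
  have spf : ContinuousOn (fun p : ℝ × ℝ => f p.2) (Ioi 0 ×ˢ Icc 0 L) := space_continuousOn cf
  have ppos : ∀ k, k ≤ n → ∀ t, 0 < t → ∀ x ∈ Icc 0 L, 0 < Ps (fun i => u i t) k x := by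
    intro k hk t ht x hx
    exact Finset.sum_pos (fun i hi => h.pos i (mem hk hi) t ht x hx)
      ⟨0, Finset.mem_range.mpr (Nat.succ_pos k)⟩
  -- joint continuity
  have cP : ∀ k, k ≤ n → ContinuousOn (fun p : ℝ × ℝ => Ps (fun i => u i p.1) k p.2)
      (Ioi 0 ×ˢ Icc 0 L) := fun k hk =>
    continuousOn_finsetSum _ fun i hi => h.cu i (mem hk hi)
  have cRw : ∀ k, k ≤ n → ContinuousOn (fun p : ℝ × ℝ => Rs ρ (fun i => w i p.1) k p.2)
      (Ioi 0 ×ˢ Icc 0 L) := fun k hk =>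
    continuousOn_finsetSum _ fun i hi => (h.cw i (mem hk hi)).const_mul (ρ i)
  have cRv : ∀ k, k ≤ n → ContinuousOn (fun p : ℝ × ℝ => Rs ρ (fun i => v i p.1) k p.2)
      (Ioi 0 ×ˢ Icc 0 L) := fun k hk =>
    continuousOn_finsetSum _ fun i hi => (h.cv i (mem hk hi)).const_mul (ρ i)
  have cPv : ∀ k, k ≤ n → ContinuousOn (fun p : ℝ × ℝ => Ps (fun i => v i p.1) k p.2)
      (Ioi 0 ×ˢ Icc 0 L) := fun k hk =>
    continuousOn_finsetSum _ fun i hi => h.cv i (mem hk hi)
  have hne : ∀ p ∈ (Ioi (0 : ℝ)) ×ˢ (Icc 0 L), Ps (fun i => u i p.1) k p.2 ≠ 0 := fun p hp =>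
    (ppos k hk p.1 hp.1 p.2 hp.2).ne'
  let g : ℝ → ℝ → ℝ := fun s x => f x * (Ps (fun i => u i s) c x / Ps (fun i => u i s) k x)
  let gt : ℝ → ℝ → ℝ := fun s x => f x *
    ((Rs ρ (fun i => w i s) c x * Ps (fun i => u i s) k x -
      Ps (fun i => u i s) c x * Rs ρ (fun i => w i s) k x) / Ps (fun i => u i s) k x ^ 2)
  have cg : ContinuousOn (fun p : ℝ × ℝ => g p.1 p.2) (Ioi 0 ×ˢ Icc 0 L) :=
    spf.mul ((cP c hc).div (cP k hk) hne)
  have cgt : ContinuousOn (fun p : ℝ × ℝ => gt p.1 p.2) (Ioi 0 ×ˢ Icc 0 L) :=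
    spf.mul ((((cRw c hc).mul (cP k hk)).sub ((cP c hc).mul (cRw k hk))).div ((cP k hk).pow 2)
      fun p hp => pow_ne_zero 2 (hne p hp))
  -- the time derivative of `P_k`
  have dP : ∀ k, k ≤ n → ∀ s, 0 < s → ∀ x ∈ Icc 0 L,
      HasDerivAt (fun r => Ps (fun i => u i r) k x)
        (Rs ρ (fun i => w i s) k x +
          Ps (fun i => u i s) k x * (m x - ∑ j ∈ Finset.range (n + 1), u j s x)) s := by
    intro k hk s hs x hx
    have h1 := HasDerivAt.fun_sum (u := Finset.range (k + 1)) (A := fun i r => u i r x)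
      (A' := fun i => ρ i * w i s x + u i s x * (m x - ∑ j ∈ Finset.range (n + 1), u j s x))
      (x := s) (fun i hi => h.dt i (mem hk hi) s hs x hx)
    rw [Finset.sum_add_distrib, ← Finset.sum_mul] at h1
    exact h1
  have hV := hasDerivAt_integral hL cg cgt (fun s hs x hx => by
    have hPk : Ps (fun i => u i s) k x ≠ 0 := (ppos k hk s hs x hx).ne'
    have h1 := ((dP c hc s hs x hx).div (dP k hk s hs x hx) hPk).const_mul (f x)
    refine h1.congr_deriv ?_
    simp only [gt]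
    congr 2
    ring)
  refine (hV t ht).congr_deriv ?_
  -- integration by parts
  have sP : ∀ k, k ≤ n → ContinuousOn (Ps (fun i => u i t) k) (Icc 0 L) := fun k hk =>
    slice_continuousOn (g := fun s => Ps (fun i => u i s) k) ht (cP k hk)
  have sPv : ∀ k, k ≤ n → ContinuousOn (Ps (fun i => v i t) k) (Icc 0 L) := fun k hk =>
    slice_continuousOn (g := fun s => Ps (fun i => v i s) k) ht (cPv k hk)
  have sRv : ∀ k, k ≤ n → ContinuousOn (Rs ρ (fun i => v i t) k) (Icc 0 L) := fun k hk =>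
    slice_continuousOn (g := fun s => Rs ρ (fun i => v i s) k) ht (cRv k hk)
  have sRw : ∀ k, k ≤ n → ContinuousOn (Rs ρ (fun i => w i t) k) (Icc 0 L) := fun k hk =>
    slice_continuousOn (g := fun s => Rs ρ (fun i => w i s) k) ht (cRw k hk)
  have sne : ∀ x ∈ Icc 0 L, Ps (fun i => u i t) k x ≠ 0 := fun x hx => (ppos k hk t ht x hx).ne'
  have dPx : ∀ k, k ≤ n → DerivOn L (Ps (fun i => u i t) k) (Ps (fun i => v i t) k) := by
    intro k hk x hx
    exact HasDerivWithinAt.fun_sum fun i hi => h.dx i (mem hk hi) t ht x hx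
  have dRx : ∀ k, k ≤ n → DerivOn L (Rs ρ (fun i => v i t) k) (Rs ρ (fun i => w i t) k) := by
    intro k hk x hx
    exact HasDerivWithinAt.fun_sum fun i hi => (h.dxx i (mem hk hi) t ht x hx).const_mul (ρ i)
  have e0 : ∀ k, k ≤ n → Rs ρ (fun i => v i t) k 0 = 0 := by
    intro k hk
    refine Finset.sum_eq_zero fun i hi => ?_
    change ρ i * v i t 0 = 0
    rw [h.b0 i (mem hk hi) t ht, mul_zero]
  have eL : ∀ k, k ≤ n → Rs ρ (fun i => v i t) k L = 0 := by
    intro k hk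
    refine Finset.sum_eq_zero fun i hi => ?_
    change ρ i * v i t L = 0
    rw [h.bL i (mem hk hi) t ht, mul_zero]
  let J : ℝ → ℝ := fun x => f x * ((Rs ρ (fun i => v i t) c x * Ps (fun i => u i t) k x -
    Rs ρ (fun i => v i t) k x * Ps (fun i => u i t) c x) / Ps (fun i => u i t) k x ^ 2)
  let J' : ℝ → ℝ := fun x => f' x * ((Rs ρ (fun i => v i t) c x * Ps (fun i => u i t) k x -
      Rs ρ (fun i => v i t) k x * Ps (fun i => u i t) c x) / Ps (fun i => u i t) k x ^ 2) +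
    f x * ((((Rs ρ (fun i => w i t) c x * Ps (fun i => u i t) k x +
        Rs ρ (fun i => v i t) c x * Ps (fun i => v i t) k x) -
      (Rs ρ (fun i => w i t) k x * Ps (fun i => u i t) c x +
        Rs ρ (fun i => v i t) k x * Ps (fun i => v i t) c x)) * Ps (fun i => u i t) k x ^ 2 -
      (Rs ρ (fun i => v i t) c x * Ps (fun i => u i t) k x -
        Rs ρ (fun i => v i t) k x * Ps (fun i => u i t) c x) *
        ((2 : ℕ) * Ps (fun i => u i t) k x ^ (2 - 1) * Ps (fun i => v i t) k x)) /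
      (Ps (fun i => u i t) k x ^ 2) ^ 2)
  have hJ : DerivOn L J J' := by
    intro x hx
    exact (hf x hx).mul (((((dRx c hc x hx).mul (dPx k hk x hx)).sub
      ((dRx k hk x hx).mul (dPx c hc x hx))).div ((dPx k hk x hx).pow 2)
      (pow_ne_zero 2 (sne x hx))))
  have cJ' : ContinuousOn J' (Icc 0 L) := by
    refine (hf'c.mul ((((sRv c hc).mul (sP k hk)).sub ((sRv k hk).mul (sP c hc))).div
      ((sP k hk).pow 2) fun x hx => pow_ne_zero 2 (sne x hx))).add (cf.mul ?_)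
    refine ContinuousOn.div ?_ (((sP k hk).pow 2).pow 2)
      fun x hx => pow_ne_zero 2 (pow_ne_zero 2 (sne x hx))
    refine (((((sRw c hc).mul (sP k hk)).add ((sRv c hc).mul (sPv k hk))).sub
      (((sRw k hk).mul (sP c hc)).add ((sRv k hk).mul (sPv c hc)))).mul ((sP k hk).pow 2)).sub ?_
    exact (((sRv c hc).mul (sP k hk)).sub ((sRv k hk).mul (sP c hc))).mul
      (((sP k hk).pow (2 - 1)).const_mul _ |>.mul (sPv k hk))
  have hJint := integral_deriv hL hJ cJ'
  have hJ0 : J L - J 0 = 0 := by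
    simp only [J]
    rw [e0 c hc, e0 k hk, eL c hc, eL k hk]
    ring
  rw [hJ0] at hJint
  have sgt : ContinuousOn (gt t) (Icc 0 L) := slice_continuousOn ht cgt
  have h5 : ∫ x in (0)..L, gt t x = ∫ x in (0)..L, (gt t x - J' x) := by
    rw [intervalIntegral.integral_sub (ii hL sgt) (ii hL cJ'), hJint, sub_zero]
  rw [h5]
  refine intervalIntegral.integral_congr ?_
  intro x hx
  rw [uIcc_of_le hL.le] at hx
  have hPk := sne x hx
  simp only [gt, J']
  push_cast
  field_simp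
  ring

end Pool.Agent.Lib.MP_4fbe7c_an.UL.H78
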